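import Mathlib
import Pool.Agent.K7.H11.Surr.Chain

/-!
# No surround count forces a tiling

For every `k` there is a set of three prototiles (closed topological disks) that admits no tiling of
the plane although every single tile can be surrounded `k` times. Hence there is no function
`f (n, m)` as in the question: already `f (3, 1)` does not exist.

The three prototiles, for a parameter `N > k`, with `P = 8 N + 8`:

* a *frame* `F` of width `P`, with `2 N + 1` slots of width `4` on its lower side;
* a *unit* `U`, a `4 × 4` square, which fills a slot;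
* a *bar with a tooth* `M`: a bar of width `P + 4` with one tooth, which fills a slot.

Small bumps and dents make sure that the frames form rows, that exactly one slot of each
frame contains a tooth (the left wall of a unit or a tooth has a bump to the left, the
right wall of a tooth has a bump to the right), and that all other slots contain units. Consecutive
teeth are at distance at least `P + 4`, consecutive frames are at distance `P`, so that no row of
more than `2 N + 3` frames can be completed: there is no tiling of the plane. But `2 k + 1` columns of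
frames, with the tooth in the slot `N + i` of the frame `i`, and arbitrarily many rows of this kind
fit together.

That no tiling exists is proved by a local analysis at the bumps, which shows that a dent must be
filled by a bump of the same size.
-/

set_option autoImplicit false

namespace Pool.Agent.Results.MP_ae4adf_co.ThreePrototiles

open Set

/-- A closed topological disk in the plane. -/
def IsClosedDisk (T : Set ℂ) : Prop := Nonempty (T ≃ₜ Metric.closedBall (0 : ℂ) 1)

/-- A tile from `S`: the image of a member of `S` under an isometry of the plane. -/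
def IsTileFrom (S : Set (Set ℂ)) (T : Set ℂ) : Prop := ∃ X ∈ S, ∃ g : ℂ ≃ᵢ ℂ, T = g '' X

/-- A patch: a finite collection of tiles from `S` with pairwise disjoint interiors whose union is
a closed topological disk. -/
def IsPatch (S : Set (Set ℂ)) (A : Set (Set ℂ)) : Prop :=
  A.Finite ∧ (∀ T ∈ A, IsTileFrom S T) ∧
    (∀ T ∈ A, ∀ T' ∈ A, T ≠ T' → Disjoint (interior T) (interior T')) ∧ IsClosedDisk (⋃₀ A)

/-- `B` surrounds `A`. -/
def Surrounds (B A : Set (Set ℂ)) : Prop := A ⊆ B ∧ ⋃₀ A ⊆ interior (⋃₀ B)

/-- The patch `A` can be surrounded `r` times. -/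
def CanBeSurrounded (S : Set (Set ℂ)) (A : Set (Set ℂ)) (r : ℕ) : Prop :=
  ∃ C : ℕ → Set (Set ℂ), C 0 = A ∧ (∀ i ≤ r, IsPatch S (C i)) ∧ ∀ i < r, Surrounds (C (i + 1)) (C i)

/-- `S` admits a tiling of the plane. -/
def AdmitsTiling (S : Set (Set ℂ)) : Prop :=
  ∃ (ι : Type) (_ : Countable ι) (T : ι → Set ℂ), (∀ i, IsTileFrom S (T i)) ∧
    (∀ i j, i ≠ j → Disjoint (interior (T i)) (interior (T j))) ∧ ⋃ i, T i = univ

open Pool.Agent.K7.H11.Surr in
theorem key (k : ℕ) : ∃ S : Set (Set ℂ), S.ncard = 3 ∧ (∀ X ∈ S, IsClosedDisk X) ∧ ¬ AdmitsTiling S ∧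
    (∃ A, IsPatch S A ∧ A.ncard = 1) ∧ ∀ A, IsPatch S A → A.ncard = 1 → CanBeSurrounded S A k := by
  set N := k + 1 with hN
  have hN0 : 0 < N := by omega
  refine ⟨{tile N Kind.F, tile N Kind.U, tile N Kind.M}, ?_, ?_, ?_, ?_, ?_⟩
  · rw [Set.ncard_eq_three]
    exact ⟨_, _, _, tile_ne N (by decide), tile_ne N (by decide), tile_ne N (by decide), rfl⟩
  · rintro X (rfl | rfl | rfl)
    · exact disk_tile N Kind.F
    · exact disk_tile N Kind.U
    · exact disk_tile N Kind.M
  · rintro ⟨ι, -, T, hT, hdisj, hcov⟩
    have h : ∀ i, ∃ (a : Kind) (g : ℂ ≃ᵢ ℂ), T i = g '' tile N a := by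
      intro i
      obtain ⟨X, hX, g, hg⟩ := hT i
      rcases hX with rfl | rfl | rfl
      · exact ⟨Kind.F, g, hg⟩
      · exact ⟨Kind.U, g, hg⟩
      · exact ⟨Kind.M, g, hg⟩
    choose a g hg using h
    apply no_tiling (N := N)
    refine ⟨ι, a, g, ?_, ?_⟩
    · intro z
      have hz : z ∈ ⋃ i, T i := by rw [hcov]; trivial
      obtain ⟨i, hi⟩ := mem_iUnion.1 hz
      exact ⟨i, by rw [← hg i]; exact hi⟩
    · intro i j hij
      rw [← hg i, ← hg j]
      exact hdisj i j hij
  · refine ⟨{tile N Kind.F}, ⟨finite_singleton _, ?_, ?_, ?_⟩, ncard_singleton _⟩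
    · rintro T rfl
      exact ⟨tile N Kind.F, Or.inl rfl, IsometryEquiv.refl ℂ, (image_id _).symm⟩
    · rintro T rfl T' rfl h
      exact absurd rfl h
    · rw [sUnion_singleton]
      exact disk_tile N Kind.F
  · intro A hA hA1
    obtain ⟨T, rfl⟩ := Set.ncard_eq_one.1 hA1
    obtain ⟨X, hX, g, hg⟩ := hA.2.1 T rfl
    obtain ⟨a, rfl⟩ : ∃ a : Kind, X = tile N a := by
      rcases hX with rfl | rfl | rfl
      · exact ⟨Kind.F, rfl⟩
      · exact ⟨Kind.U, rfl⟩
      · exact ⟨Kind.M, rfl⟩
    have hmem : ∀ b : Kind, tile N b ∈ ({tile N Kind.F, tile N Kind.U, tile N Kind.M} : Set (Set ℂ)) := by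
      intro b
      cases b
      · exact Or.inl rfl
      · exact Or.inr (Or.inl rfl)
      · exact Or.inr (Or.inr rfl)
    obtain ⟨h, hh⟩ := pc_tile N 0 0 (home N a)
    rw [kd_home hN0] at hh
    -- the transporting isometry
    set φ : ℂ ≃ᵢ ℂ := h.symm.trans g with hφ
    have hφT : φ '' pc N 0 0 (home N a) = T := by
      rw [hh, hg, ← image_comp]
      congr 1
      funext z
      simp [hφ]
    have hint : ∀ Y : Set ℂ, interior (φ '' Y) = φ '' interior Y := fun Y =>
      (φ.toHomeomorph.image_interior Y).symm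
    have hU : ∀ D : Set (Set ℂ), ⋃₀ ((fun Q => φ '' Q) '' D) = φ '' ⋃₀ D := by
      intro D
      rw [sUnion_image, sUnion_eq_biUnion, image_iUnion₂]
    refine ⟨fun j => (fun Q => φ '' Q) '' chain N a j, ?_, ?_, ?_⟩
    · have e0 : chain N a 0 = {pc N 0 0 (home N a)} := if_pos rfl
      change (fun Q => φ '' Q) '' chain N a 0 = _
      rw [e0, image_singleton, hφT]
    · intro j hj
      refine ⟨(chain_finite N a j).image _, ?_, ?_, ?_⟩
      · rintro _ ⟨Q, hQ, rfl⟩
        obtain ⟨i, s, c, -, rfl⟩ := chain_piece hQ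
        obtain ⟨g', hg'⟩ := pc_tile N i s c
        refine ⟨tile N (kd N i c), hmem _, g'.trans φ, ?_⟩
        change φ '' pc N i s c = _
        rw [hg', ← image_comp]
        rfl
      · rintro _ ⟨Q, hQ, rfl⟩ _ ⟨Q', hQ', rfl⟩ hne
        change Disjoint (interior (φ '' Q)) (interior (φ '' Q'))
        rw [hint, hint, disjoint_image_iff φ.injective]
        apply chain_disj hQ hQ'
        rintro rfl
        exact hne rfl
      · rw [hU]
        obtain ⟨e⟩ := chain_disk hN0 a (show j ≤ N by omega)
        exact ⟨(φ.toHomeomorph.image _).symm.trans e⟩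
    · intro j hj
      refine ⟨image_mono (chain_sub a j), ?_⟩
      rw [hU, hU, hint]
      exact image_mono (chain_int a (by omega))

/-- **Negative answer.** For every `k` there is a set of three prototiles that admits no tiling of the
plane, although some patch consists of one tile and every patch that consists of one tile can
be surrounded `k` times. Consequently there is no function `f` as in the question. -/
theorem result :
    (∀ k : ℕ, ∃ S : Set (Set ℂ), S.ncard = 3 ∧ (∀ X ∈ S, IsClosedDisk X) ∧ ¬ AdmitsTiling S ∧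
      (∃ A, IsPatch S A ∧ A.ncard = 1) ∧ ∀ A, IsPatch S A → A.ncard = 1 → CanBeSurrounded S A k) ∧
    ¬ ∃ f : ℕ → ℕ → ℕ, (∀ n m, 0 < n → 0 < m → 0 < f n m) ∧
      ∀ n m : ℕ, 0 < n → 0 < m → ∀ S : Set (Set ℂ), S.Finite → S.ncard = n → (∀ X ∈ S, IsClosedDisk X) →
        (∃ A, IsPatch S A ∧ A.ncard = m) →
        (∀ A, IsPatch S A → A.ncard = m → CanBeSurrounded S A (f n m)) → AdmitsTiling S := by
  refine ⟨key, ?_⟩
  rintro ⟨f, -, hf⟩
  obtain ⟨S, h1, h2, h3, h4, h5⟩ := key (f 3 1)
  exact h3 (hf 3 1 (by norm_num) (by norm_num) S (Set.finite_of_ncard_ne_zero (by omega)) h1 h2 h4 h5)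

end Pool.Agent.Results.MP_ae4adf_co.ThreePrototiles
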